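import Pool.Agent.H40.Js8

set_option autoImplicit false

namespace Pool.Agent.Results.MP_5f5b92_lc.AllN

open Pool.Agent.H40.Bspt Pool.Agent.H40.Jz Pool.Agent.H40.Js Set Filter

def Q (_ : Unit) (y : Set ℕ) : Prop := y.Finite

instance : NF (Pres Q) := presNF Q ()

theorem all (π : Equiv.Perm ℕ) : π ∈ Pres Q := fun _ _ =>
  ⟨fun h => h.of_preimage π.surjective, fun h => h.preimage π.injective.injOn⟩

theorem supp {p : Pres Q → Prop} (h : ∀ᶠ g in NF.F, p g) : ∃ B : Set ℕ, B.Finite ∧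
    ∀ a ∉ B, ∀ b ∉ B, ∀ c ∉ B, ∀ d ∉ B, p ⟨Equiv.swap a b * Equiv.swap c d, all _⟩ := by
  obtain ⟨F, h1, h2, h3⟩ := pres_iff.1 h
  refine ⟨⋃₀ F, h1.sUnion h2, fun a ha b hb c hc d hd => h3 _ fun y hy x => ?_⟩
  exact (swap_pres (fun y hy => iff_of_false (fun e => ha ⟨y, hy, e⟩) fun e => hb ⟨y, hy, e⟩)
    y hy _).trans (swap_pres (fun y hy => iff_of_false (fun e => hc ⟨y, hy, e⟩)
      fun e => hd ⟨y, hy, e⟩) y hy x)

def pr (a b : ℕ) : PS (Pres Q) ℕ := ⟨{a, b}, pres_sym (toFinite _)⟩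

theorem two (J : JS (Pres Q) ℕ) {u : J.M} (h : Two J.E (J.sA unA) u) :
    ∃ a b, a ≠ b ∧ u = J.sA (pr a b) := by
  obtain ⟨a, b, ha, hb, h1, h2⟩ := h
  obtain ⟨a, rfl⟩ := J.isA ha
  obtain ⟨b, rfl⟩ := J.isA hb
  obtain ⟨s, -, rfl⟩ := J.subA (s := unA) (a := u) fun z hz => by
    rcases (h2 z).1 hz with rfl | rfl <;> assumption
  refine ⟨a, b, fun e => h1 (congrArg _ e), congrArg _ (Subtype.ext (Set.ext fun x => ?_))⟩
  rw [← J.memA, h2, J.nA_inj.eq_iff, J.nA_inj.eq_iff]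
  rfl

theorem two' (J : JS (Pres Q) ℕ) {a b : ℕ} (h : a ≠ b) : Two J.E (J.sA unA) (J.sA (pr a b)) :=
  ⟨_, _, J.memA.2 trivial, J.memA.2 trivial, J.nA_inj.ne h, fun z => ⟨fun hz => by
      obtain ⟨x, hx, rfl⟩ := J.elA hz
      rcases hx with rfl | rfl
      exacts [Or.inl rfl, Or.inr rfl], by
      rintro (rfl | rfl) <;> exact J.memA.2 (by simp [pr])⟩⟩

theorem result : ∃ (M : Type) (E : M → M → Prop), IsZF E ∧
    ∃ X, ¬ CRT E X ∧ ∀ n, IsNat E n → RT E X n := by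
  obtain ⟨J⟩ := ex_js (Λ := Pres Q) (A := ℕ) (pres_fx fun a => finite_singleton a)
  refine ⟨J.M, J.E, J.zf, J.sA unA, fun h => ?_, fun n hn c hc => ?_⟩
  · obtain ⟨Y, l, h1, h2, h3, -⟩ := h (·.1) (J.intl_of (s := .w .a) (t := .w .a) univ id
      (Eventually.of_forall fun _ _ _ => ⟨trivial, rfl⟩) fun z => by
        obtain ⟨a, b, -, e⟩ := two J z.2
        exact ⟨_, trivial, e, e⟩)
    obtain ⟨y, -, rfl⟩ := J.subA h1
    obtain ⟨B, h4, h5⟩ := supp (J.sym_mem (t := .p .a .a) l)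
    obtain ⟨a, ha, b, hb, h6⟩ := (Infinite.sdiff (fun e => h2 (J.finA.2 e)) h4).nontrivial
    have key : ∀ a ∈ y.1 \ B, ∀ b ∈ y.1 \ B, App J.E l (J.nA a) (J.nA b) →
        App J.E l (J.nA b) (J.nA a) := fun a ha b hb e => by
      have := (h5 a ha.2 b hb.2 a ha.2 a ha.2 (a, b)).2 (J.app_nu.1 e)
      refine J.app_nu.2 (Eq.mp (congrArg (fun w : ℕ × ℕ => J.E (J.ν (.p .a .a) w) l) ?_) this)
      exact Prod.ext (by show Equiv.swap a b (Equiv.swap a a a) = b; simp)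
        (by show Equiv.swap a b (Equiv.swap a a b) = a; simp)
    have a' := J.memA.2 ha.1
    have b' := J.memA.2 hb.1
    rcases h3.2.2 _ _ a' b' (J.nA_inj.ne h6) with e | e
    · exact h3.1 _ a' (h3.2.1 _ _ _ a' b' a' e (key a ha b hb e))
    · exact h3.1 _ a' (h3.2.1 _ _ _ a' b' a' (key b hb a ha e) e)
  · obtain ⟨n, rfl⟩ := J.nat_iff.1 hn
    obtain ⟨B, h4, h5⟩ := supp (J.intl_sym (s := .w .a) (t := .n) hc)
    obtain ⟨a, ha, b, hb, h6⟩ := h4.infinite_compl.nontrivial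
    refine ⟨J.sA ⟨Bᶜ, sym_compl (pres_sym h4)⟩, J.subA_iff.2 (subset_univ _),
      fun e => h4.infinite_compl (J.finA.1 e), c ⟨_, two' J h6⟩, fun u hu => ?_⟩
    obtain ⟨x, y, h7, e⟩ := two J u.2
    rw [e, J.subA_iff] at hu
    have hx : x ∉ B := hu (Or.inl rfl)
    have hy : y ∉ B := hu (Or.inr rfl)
    obtain ⟨k, -, hk⟩ := (J.nat n _).1 (c ⟨_, two' J h6⟩).2
    have h8 : Equiv.swap a x b ∉ B := by
      rw [Equiv.swap_apply_def]; split_ifs <;> assumption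
    have h9 : x ≠ Equiv.swap a x b := fun e => h6 ((Equiv.swap a x).injective (by simpa using e))
    refine Subtype.ext ((h5 _ h8 y hy a ha x hx ⟨_, two' J h6⟩ u (pr a b) k rfl
      (e.trans (congrArg J.sA (Subtype.ext ?_))) hk).trans hk.symm)
    have := image_pair (Equiv.swap (Equiv.swap a x b) y * Equiv.swap a x) a b
    simp only [Equiv.Perm.mul_apply, Equiv.swap_apply_left,
      Equiv.swap_apply_of_ne_of_ne h9 h7] at this
    exact this.symm.trans (Equiv.image_eq_preimage_symm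
      (Equiv.swap (Equiv.swap a x b) y * Equiv.swap a x) {a, b})

end Pool.Agent.Results.MP_5f5b92_lc.AllN
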